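import Pool.Agent.H59.TTO

/-!
# `A ⊕ Aᵗ` is not always a direct sum of truncated Toeplitz operators

For every `n ≥ 32` there is an irreducible matrix `A` which is not unitarily equivalent to a complex symmetric matrix and such that
`A ⊕ Aᵗ` is not unitarily equivalent to a finite orthogonal direct sum of truncated Toeplitz operators, for arbitrary inner
functions and arbitrary bounded symbols.

Proof. (1) Model spaces (`model_shift`, `exists_gen`). If `f ∈ K_θ` is orthogonal to `z̄ θ` then `z f ∈ K_θ`. So if `K_θ` has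
dimension `m` there is `w ≠ 0` such that `w, z w, ..., z^(m-1) w` is a basis of `K_θ`. In this basis the Gram matrix and the matrix of
the form `⟨A f, g⟩ = ∫ φ f ḡ` are Toeplitz matrices, so a direct sum of truncated Toeplitz operators on spaces of total dimension `2 n`
is described, up to unitary equivalence, by two block diagonal matrices with Toeplitz blocks, that is, by `8 n` complex numbers
(`matrices`).
(2) Invariants (`Pool.Agent.H59.TTO`). Let `A = D + i K` with `D = diag(0, 1, ..., n - 1)` and `K` Hermitian. The numbers `|K_ij|²` are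
unitary invariants of `A ⊕ Aᵗ`: `2 |K_ij|² = tr (L_i(X) Y L_j(X) Y)` where `X` and `Y` are the real and the imaginary part and `L_i` is
the interpolation polynomial. They are smooth functions of the `16 n + 2` real parameters of (1). There are `n (n + 1) / 2 > 16 n + 2`
numbers `|K_ij|²` and they can be prescribed arbitrarily (positive). This contradicts the theorem on the Hausdorff dimension of the
image of a smooth map.
(3) The phases of the `K_ij` are free; we take `K_01 K_12 K_20` not real. Then `A` is irreducible since no `K_ij` is zero, and `A` is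
not unitarily equivalent to a complex symmetric matrix.
-/

set_option autoImplicit false

open MeasureTheory AddCircle Matrix Polynomial

namespace Pool.Agent.Results.MP_f70052_an.IrreducibleCounterexample

section Definitions

/-- The arc length measure of the unit circle, normalised. The circle is represented by `ℝ / ℤ`: the class of the real number `x`
stands for the point `z = e^{2πix}`, and the function `z ^ n` is `fourier n`. -/
noncomputable abbrev circleMeasure : Measure UnitAddCircle := haarAddCircle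

/-- The inner product `⟨f, g⟩ = ∫ f ḡ` of `L²` of the circle. -/
noncomputable def ip (f g : UnitAddCircle → ℂ) : ℂ := ∫ x, (starRingEnd ℂ) (g x) * f x ∂circleMeasure

/-- The Hardy space `H²`: the functions in `L²` of the circle all of whose Fourier coefficients of negative index vanish. -/
def InHardySpace (f : UnitAddCircle → ℂ) : Prop :=
  MemLp f 2 circleMeasure ∧ ∀ n : ℤ, n < 0 → fourierCoeff f n = 0

/-- Inner functions: the functions in `H²` of absolute value one almost everywhere on the circle. -/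
def IsInner (θ : UnitAddCircle → ℂ) : Prop := InHardySpace θ ∧ ∀ᵐ x ∂circleMeasure, ‖θ x‖ = 1

/-- The model space `K_θ = H² ⊖ θ H²`: the functions in `H²` which are orthogonal to all products `θ g`, `g ∈ H²`. -/
def InModelSpace (θ f : UnitAddCircle → ℂ) : Prop :=
  InHardySpace f ∧ ∀ g : UnitAddCircle → ℂ, InHardySpace g → ip f (fun x => θ x * g x) = 0

/-- `e_1, ..., e_m` is an orthonormal basis of the model space `K_θ`: orthonormal elements of it such that no function in `K_θ` is
orthogonal to all of them except zero. -/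
def IsModelBasis {m : ℕ} (θ : UnitAddCircle → ℂ) (e : Fin m → UnitAddCircle → ℂ) : Prop :=
  (∀ j, InModelSpace θ (e j)) ∧ (∀ j k, ip (e j) (e k) = if j = k then 1 else 0) ∧
    ∀ f : UnitAddCircle → ℂ, InModelSpace θ f → (∀ j, ip f (e j) = 0) → ∀ᵐ x ∂circleMeasure, f x = 0

/-- The `m × m` matrix `B` is the matrix of a truncated Toeplitz operator `A` in an orthonormal basis `e_1, ..., e_m` of a model
space `K_θ` of dimension `m`: `θ` is an inner function, `A f` is the orthogonal projection of `φ f` to `K_θ` for a bounded function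
`φ`, and `B_jk = ⟨A e_k, e_j⟩ = ⟨φ e_k, e_j⟩`. -/
def IsTTOMatrix {m : ℕ} (B : Matrix (Fin m) (Fin m) ℂ) : Prop :=
  ∃ (θ φ : UnitAddCircle → ℂ) (e : Fin m → UnitAddCircle → ℂ), IsInner θ ∧ MemLp φ ⊤ circleMeasure ∧ IsModelBasis θ e ∧
    ∀ j k, B j k = ip (fun x => φ x * e k x) (e j)

/-- The matrix `M` is unitarily equivalent to a finite orthogonal direct sum of truncated Toeplitz operators: `M = W B W*` where `W`
is unitary and `B` is block diagonal, with blocks the matrices of truncated Toeplitz operators. -/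
def IsSumOfTTO {ι : Type} [Fintype ι] [DecidableEq ι] (M : Matrix ι ι ℂ) : Prop :=
  ∃ (r : ℕ) (m : Fin r → ℕ) (B : ∀ i, Matrix (Fin (m i)) (Fin (m i)) ℂ) (W : Matrix ι (Σ i, Fin (m i)) ℂ),
    (∀ i, IsTTOMatrix (B i)) ∧ Wᴴ * W = 1 ∧ W * Wᴴ = 1 ∧ M = W * blockDiagonal' B * Wᴴ

/-- `A` is irreducible: it has no reducing subspace `W` (`A W ⊆ W` and `A* W ⊆ W`) except the trivial ones. -/
def IsIrreducible {n : ℕ} (A : Matrix (Fin n) (Fin n) ℂ) : Prop :=
  ∀ W : Submodule ℂ (Fin n → ℂ), (∀ v ∈ W, A *ᵥ v ∈ W) → (∀ v ∈ W, Aᴴ *ᵥ v ∈ W) → W = ⊥ ∨ W = ⊤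

/-- `A` is unitarily equivalent to a complex symmetric matrix. -/
def IsUECSM {n : ℕ} (A : Matrix (Fin n) (Fin n) ℂ) : Prop :=
  ∃ V ∈ Matrix.unitaryGroup (Fin n) ℂ, (Vᴴ * A * V)ᵀ = Vᴴ * A * V

end Definitions

section Shift

/-- `L²` as a Hilbert space -/
private abbrev L2 : Type := Lp ℂ 2 (haarAddCircle (T := (1 : ℝ)))

/-- `H²` as a subspace -/
private noncomputable def H2 : Submodule ℂ L2 where
  carrier := {f | ∀ n : ℤ, n < 0 → fourierCoeff f n = 0}
  zero_mem' := by
    intro n _
    rw [← fourierBasis_repr, map_zero]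
    rfl
  add_mem' := by
    intro f g hf hg n hn
    have h1 := hf n hn
    have h2 := hg n hn
    rw [← fourierBasis_repr] at h1 h2 ⊢
    rw [map_add]
    show fourierBasis.repr f n + fourierBasis.repr g n = 0
    rw [h1, h2, add_zero]
  smul_mem' := by
    intro c f hf n hn
    have h1 := hf n hn
    rw [← fourierBasis_repr] at h1 ⊢
    rw [map_smul]
    show c • fourierBasis.repr f n = 0
    rw [h1, smul_zero]

/-- the model space as a subspace -/
private noncomputable def modelSpace (θ : L2) : Submodule ℂ L2 :=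
  H2 ⊓ (Submodule.span ℂ {h : L2 | ∃ g ∈ H2, ∀ᵐ x ∂(haarAddCircle (T := (1 : ℝ))), h x = θ x * g x})ᗮ


/-- the function `z ^ j f` -/
private noncomputable def zs (j : ℤ) (f : L2) : L2 :=
  MemLp.toLp (fun x => fourier j x * f x) (by
    refine (Lp.memLp f).of_le (((fourier j).continuous.aestronglyMeasurable).mul (Lp.aestronglyMeasurable f)) ?_
    refine Filter.Eventually.of_forall fun x => ?_
    rw [norm_mul, fourier_apply, Circle.norm_coe, one_mul])

private lemma zs_coe (j : ℤ) (f : L2) : zs j f =ᵐ[haarAddCircle] fun x => fourier j x * f x :=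
  MemLp.coeFn_toLp _

private lemma zs_zs (i j : ℤ) (f : L2) : zs i (zs j f) = zs (i + j) f := by
  apply Lp.ext
  filter_upwards [zs_coe i (zs j f), zs_coe j f, zs_coe (i + j) f] with x h1 h2 h3
  rw [h1, h2, h3, fourier_add, mul_assoc]

private lemma zs_zero (f : L2) : zs 0 f = f := by
  apply Lp.ext
  filter_upwards [zs_coe 0 f] with x h1
  rw [h1, fourier_zero, one_mul]

private lemma zs_add (j : ℤ) (f g : L2) : zs j (f + g) = zs j f + zs j g := by
  apply Lp.ext
  filter_upwards [zs_coe j (f + g), zs_coe j f, zs_coe j g, Lp.coeFn_add f g,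
    Lp.coeFn_add (zs j f) (zs j g)] with x h1 h2 h3 h4 h5
  rw [h1, h4, h5, Pi.add_apply, Pi.add_apply, h2, h3, mul_add]

private lemma zs_smul (j : ℤ) (c : ℂ) (f : L2) : zs j (c • f) = c • zs j f := by
  apply Lp.ext
  filter_upwards [zs_coe j (c • f), zs_coe j f, Lp.coeFn_smul c f, Lp.coeFn_smul c (zs j f)] with x h1 h2 h3 h4
  rw [h1, h3, h4, Pi.smul_apply, Pi.smul_apply, h2, smul_eq_mul, smul_eq_mul]
  ring

private lemma coeff_zs (j : ℤ) (f : L2) (n : ℤ) : fourierCoeff (zs j f) n = fourierCoeff f (n - j) := by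
  unfold fourierCoeff
  apply integral_congr_ae
  filter_upwards [zs_coe j f] with x h1
  rw [h1, smul_eq_mul, smul_eq_mul, ← mul_assoc, ← fourier_add]
  congr 3
  ring

private lemma inner_zs (j : ℤ) (f g : L2) : inner ℂ f (zs j g) = inner ℂ (zs (-j) f) g := by
  rw [L2.inner_def, L2.inner_def]
  apply integral_congr_ae
  filter_upwards [zs_coe j g, zs_coe (-j) f] with x h1 h2
  rw [h1, h2, RCLike.inner_apply, RCLike.inner_apply, map_mul, fourier_neg, Complex.conj_conj]
  ring

private lemma zs_mem {f : L2} (hf : f ∈ H2) : zs 1 f ∈ H2 := by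
  intro n hn
  rw [coeff_zs]
  exact hf _ (by omega)

/-- the key property of model spaces -/
private lemma model_shift (θ f : L2) (hf : f ∈ modelSpace θ) (h0 : inner ℂ (zs (-1) θ) f = (0 : ℂ)) :
    zs 1 f ∈ modelSpace θ := by
  have hf1 : f ∈ H2 := hf.1
  have hf2 : ∀ u ∈ Submodule.span ℂ {h : L2 | ∃ g ∈ H2, ∀ᵐ x ∂(haarAddCircle (T := (1 : ℝ))), h x = θ x * g x},
      inner ℂ u f = (0 : ℂ) := (Submodule.mem_orthogonal _ _).1 hf.2
  refine ⟨zs_mem hf1, (Submodule.mem_orthogonal _ _).2 fun u hu => ?_⟩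
  induction hu using Submodule.span_induction with
  | mem h hh =>
    obtain ⟨g, hg, hgh⟩ := hh
    rw [inner_zs]
    set c : ℂ := fourierCoeff g 0 with hc
    -- the function `g' = z̄ (g - c)`
    set g' : L2 := zs (-1) g - c • fourierLp 2 (-1) with hg'
    have hg'H : g' ∈ H2 := by
      intro n hn
      rw [← fourierBasis_repr, hg', map_sub, map_smul]
      show fourierBasis.repr (zs (-1) g) n - c • fourierBasis.repr (fourierLp 2 (-1)) n = 0
      rw [fourierBasis_repr, coeff_zs, ← coe_fourierBasis, HilbertBasis.repr_self]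
      by_cases hn1 : n = -1
      · subst hn1
        rw [lp.single_apply_self]
        norm_num [hc]
      · rw [lp.single_apply_ne _ _ _ hn1, smul_zero, sub_zero]
        exact hg _ (by omega)
    have h' : inner ℂ (zs (-1) h - c • zs (-1) θ) f = (0 : ℂ) := by
      refine hf2 _ (Submodule.subset_span ⟨g', hg'H, ?_⟩)
      filter_upwards [hgh, zs_coe (-1) h, zs_coe (-1) θ, zs_coe (-1) g, coeFn_fourierLp (T := (1:ℝ)) 2 (-1),
        Lp.coeFn_sub (zs (-1) h) (c • zs (-1) θ), Lp.coeFn_smul c (zs (-1) θ), Lp.coeFn_sub (zs (-1) g) (c • fourierLp 2 (-1)),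
        Lp.coeFn_smul c (fourierLp (T := (1:ℝ)) 2 (-1))] with x a1 a2 a3 a4 a5 a6 a7 a8 a9
      rw [hg', a6, a8, Pi.sub_apply, Pi.sub_apply, a7, a9, Pi.smul_apply, Pi.smul_apply, a2, a3, a4, a5, a1, smul_eq_mul, smul_eq_mul]
      ring
    rw [inner_sub_left, inner_smul_left, h0, mul_zero, sub_zero] at h'
    exact h'
  | zero => rw [inner_zero_left]
  | add x y _ _ hx hy => rw [inner_add_left, hx, hy, add_zero]
  | smul a x _ hx => rw [inner_smul_left, hx, mul_zero]

private lemma coeff_sum {m : ℕ} (c : Fin m → ℂ) (w : L2) (n : ℤ) :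
    fourierCoeff (∑ j : Fin m, c j • zs (j : ℕ) w : L2) n = ∑ j : Fin m, c j * fourierCoeff w (n - (j : ℕ)) := by
  rw [← fourierBasis_repr, map_sum, lp.coeFn_sum, Finset.sum_apply]
  refine Finset.sum_congr rfl fun j _ => ?_
  rw [map_smul]
  show c j * fourierBasis.repr (zs (j : ℕ) w) n = _
  rw [fourierBasis_repr, coeff_zs]

/-- the functions `z ^ j w` are linearly independent -/
private lemma linInd {m : ℕ} (w : L2) (hw : w ∈ H2) (h0 : w ≠ 0) :
    LinearIndependent ℂ (fun j : Fin m => zs (j : ℕ) w) := by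
  have hex : ∃ n : ℕ, fourierCoeff w (n : ℤ) ≠ 0 := by
    by_contra hcon
    push Not at hcon
    apply h0
    apply fourierBasis.repr.injective
    rw [map_zero]
    ext n
    rw [fourierBasis_repr]
    rcases lt_or_ge n 0 with hn | hn
    · exact hw n hn
    · obtain ⟨k, rfl⟩ := Int.eq_ofNat_of_zero_le hn
      exact hcon k
  classical
  set n0 := Nat.find hex with hn0
  have h1 : fourierCoeff w (n0 : ℤ) ≠ 0 := Nat.find_spec hex
  have h2 : ∀ n : ℤ, n < n0 → fourierCoeff w n = 0 := by
    intro n hn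
    rcases lt_or_ge n 0 with hn1 | hn1
    · exact hw n hn1
    · obtain ⟨k, rfl⟩ := Int.eq_ofNat_of_zero_le hn1
      by_contra hne
      exact Nat.find_min hex (m := k) (by omega) hne
  rw [Fintype.linearIndependent_iff]
  intro c hc
  have key : ∀ k : ℕ, ∀ hk : k < m, c ⟨k, hk⟩ = 0 := by
    intro k
    induction k using Nat.strong_induction_on with
    | _ k ih =>
      intro hk
      have h3 := coeff_sum c w (n0 + k)
      rw [hc, Finset.sum_eq_single ⟨k, hk⟩] at h3
      · have h4 : fourierCoeff (0 : L2) (n0 + k : ℤ) = 0 := by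
          rw [← fourierBasis_repr, map_zero]
          rfl
        rw [h4] at h3
        have h5 : ((n0 : ℤ) + (k : ℤ) - ((k : ℕ) : ℤ)) = n0 := by ring
        rw [h5] at h3
        exact (mul_eq_zero.1 h3.symm).resolve_right h1
      · intro b _ hb
        rcases lt_trichotomy (b : ℕ) k with hbk | hbk | hbk
        · rw [ih b hbk b.2, zero_mul]
        · exact absurd (Fin.ext hbk) hb
        · rw [h2 _ (by omega), mul_zero]
      · intro h
        exact absurd (Finset.mem_univ _) h
  intro i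
  exact key i i.2

/-- in a model space of finite dimension `m` there is a function `w` such that the functions `z ^ j w`, `j < m`, are linearly
independent elements of it -/
private lemma exists_gen (θ : L2) [FiniteDimensional ℂ (modelSpace θ)] (m : ℕ)
    (hm : Module.finrank ℂ (modelSpace θ) = m) :
    ∃ w : L2, (∀ j : Fin m, zs (j : ℕ) w ∈ modelSpace θ) ∧ LinearIndependent ℂ (fun j : Fin m => zs (j : ℕ) w) := by
  rcases m with _ | k
  · exact ⟨0, fun j => j.elim0, linearIndependent_empty_type⟩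
  let Λ : modelSpace θ →ₗ[ℂ] (Fin k → ℂ) :=
    { toFun := fun f j => inner ℂ (zs (-1) θ) (zs (j : ℕ) (f : L2))
      map_add' := by
        intro f g
        funext j
        rw [Submodule.coe_add, zs_add, inner_add_right]
        rfl
      map_smul' := by
        intro c f
        funext j
        rw [Submodule.coe_smul, zs_smul, inner_smul_right]
        rfl }
  have hker : LinearMap.ker Λ ≠ ⊥ := by
    apply LinearMap.ker_ne_bot_of_finrank_lt
    rw [hm, Module.finrank_fin_fun]
    omega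
  obtain ⟨w, hwk, hw0⟩ := Submodule.exists_mem_ne_zero_of_ne_bot hker
  have hL : ∀ j : ℕ, j < k → inner ℂ (zs (-1) θ) (zs (j : ℕ) (w : L2)) = (0 : ℂ) := by
    intro j hj
    exact congrFun (LinearMap.mem_ker.1 hwk) ⟨j, hj⟩
  have hmem : ∀ j : ℕ, j ≤ k → zs (j : ℕ) (w : L2) ∈ modelSpace θ := by
    intro j
    induction j with
    | zero =>
      intro _
      rw [Nat.cast_zero, zs_zero]
      exact w.2
    | succ j ih =>
      intro hj
      have h1 := model_shift θ _ (ih (by omega)) (hL j (by omega))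
      rw [zs_zs] at h1
      rw [Nat.cast_succ, add_comm]
      exact h1
  exact ⟨w, fun j => hmem j (by omega), linInd w w.2.1 fun h => hw0 (Subtype.ext h)⟩

private lemma inner_gen (w : L2) (j l : ℕ) : inner ℂ (zs j w) (zs l w) =
    ∫ x, fourier ((l : ℤ) - (j : ℤ)) x * ((starRingEnd ℂ) (w x) * w x) ∂(haarAddCircle (T := (1 : ℝ))) := by
  rw [L2.inner_def]
  apply integral_congr_ae
  filter_upwards [zs_coe j w, zs_coe l w] with x h1 h2
  rw [h1, h2, RCLike.inner_apply, map_mul, ← fourier_neg, sub_eq_add_neg, fourier_add]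
  ring

private lemma symbol_gen (w : L2) (φ : UnitAddCircle → ℂ) (j l : ℕ) :
    ∫ x, (starRingEnd ℂ) ((zs j w) x) * (φ x * (zs l w) x) ∂(haarAddCircle (T := (1 : ℝ))) =
    ∫ x, fourier ((l : ℤ) - (j : ℤ)) x * (φ x * ((starRingEnd ℂ) (w x) * w x)) ∂(haarAddCircle (T := (1 : ℝ))) := by
  apply integral_congr_ae
  filter_upwards [zs_coe j w, zs_coe l w] with x h1 h2
  rw [h1, h2, map_mul, ← fourier_neg, sub_eq_add_neg, fourier_add]
  ring

end Shift

section Cover

open Pool.Agent.H59.TTO (Idx toep bt Gm Tm Fm Par Amat)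

private lemma toep_of_int {k : ℕ} (G : ℤ → ℂ) :
    (Matrix.of fun (j l : Fin k) => G (((l : ℕ) : ℤ) - ((j : ℕ) : ℤ))) =
      toep (fun l : Fin k => G (-((l : ℕ) : ℤ))) (fun l : Fin k => G ((l : ℕ) : ℤ)) := by
  ext i j
  simp only [Matrix.of_apply, toep]
  split_ifs with h
  · congr 1
    push_cast [Nat.cast_sub h]
    ring
  · congr 1
    have h' : (i : ℕ) ≤ j := by omega
    push_cast [Nat.cast_sub h']
    ring

private lemma fourierCoeff_congr {f g : UnitAddCircle → ℂ} (h : f =ᵐ[circleMeasure] g) (n : ℤ) :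
    fourierCoeff f n = fourierCoeff g n := by
  unfold fourierCoeff
  apply integral_congr_ae
  filter_upwards [h] with x hx
  rw [hx]

private lemma ip_congr {f g f' g' : UnitAddCircle → ℂ} (h : f =ᵐ[circleMeasure] f') (h' : g =ᵐ[circleMeasure] g') :
    ip f g = ip f' g' := by
  unfold ip
  apply integral_congr_ae
  filter_upwards [h, h'] with x hx hx'
  rw [hx, hx']

private lemma ip_L2 (f g : L2) : ip f g = inner ℂ g f := by
  rw [L2.inner_def]
  unfold ip
  apply integral_congr_ae
  refine Filter.Eventually.of_forall fun x => ?_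
  show (starRingEnd ℂ) (g x) * f x = inner ℂ (g x) (f x)
  rw [RCLike.inner_apply, mul_comm]

private lemma mem_H2 {f : UnitAddCircle → ℂ} (hf : InHardySpace f) : hf.1.toLp f ∈ H2 := by
  intro n hn
  rw [fourierCoeff_congr (MemLp.coeFn_toLp hf.1) n]
  exact hf.2 n hn

private lemma hardy_of_mem {f : L2} (hf : f ∈ H2) : InHardySpace f := ⟨Lp.memLp f, hf⟩

/-- the two descriptions of the model space -/
private lemma mem_model {θ : UnitAddCircle → ℂ} (hθ : IsInner θ) (f : L2) :
    f ∈ modelSpace (hθ.1.1.toLp θ) ↔ InModelSpace θ f := by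
  constructor
  · intro hf
    refine ⟨hardy_of_mem hf.1, fun g hg => ?_⟩
    have hθg : MemLp (fun x => θ x * g x) 2 circleMeasure := by
      refine hg.1.of_le (hθ.1.1.1.mul hg.1.1) ?_
      filter_upwards [hθ.2] with x hx
      rw [norm_mul, hx, one_mul]
    have h1 : inner ℂ (hθg.toLp _) f = (0 : ℂ) := by
      refine (Submodule.mem_orthogonal _ _).1 hf.2 _ (Submodule.subset_span ⟨hg.1.toLp g, mem_H2 hg, ?_⟩)
      filter_upwards [MemLp.coeFn_toLp hθg, MemLp.coeFn_toLp hg.1, MemLp.coeFn_toLp hθ.1.1] with x h1 h2 h3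
      rw [h1, h2, h3]
    rw [← h1, ← ip_L2]
    exact ip_congr Filter.EventuallyEq.rfl (MemLp.coeFn_toLp hθg).symm
  · intro hf
    refine ⟨hf.1.2, (Submodule.mem_orthogonal _ _).2 fun u hu => ?_⟩
    induction hu using Submodule.span_induction with
    | mem h hh =>
      obtain ⟨g, hg, hgh⟩ := hh
      rw [← ip_L2, ← hf.2 g (hardy_of_mem hg)]
      refine ip_congr Filter.EventuallyEq.rfl ?_
      filter_upwards [hgh, MemLp.coeFn_toLp hθ.1.1] with x h1 h2
      rw [h1, h2]
    | zero => rw [inner_zero_left]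
    | add x y _ _ hx hy => rw [inner_add_left, hx, hy, add_zero]
    | smul a x _ hx => rw [inner_smul_left, hx, mul_zero]

open scoped ComplexOrder in
/-- in a suitable basis the Gram matrix and the symbol matrix of a truncated Toeplitz operator are Toeplitz matrices -/
private lemma toeplitz_basis {m : ℕ} {B : Matrix (Fin m) (Fin m) ℂ} (h : IsTTOMatrix B) :
    ∃ (P : Matrix (Fin m) (Fin m) ℂ) (G H : ℤ → ℂ), P.det ≠ 0 ∧
      Pᴴ * P = Matrix.of (fun j l : Fin m => G (((l : ℕ) : ℤ) - ((j : ℕ) : ℤ))) ∧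
      Pᴴ * B * P = Matrix.of (fun j l : Fin m => H (((l : ℕ) : ℤ) - ((j : ℕ) : ℤ))) := by
  classical
  obtain ⟨θ, φ, e, hθ, hφ, ⟨he1, he2, he3⟩, hB⟩ := h
  set T : L2 := hθ.1.1.toLp θ with hT
  let E : Fin m → L2 := fun j => (he1 j).1.1.toLp (e j)
  have hEe : ∀ j, E j =ᵐ[circleMeasure] e j := fun j => MemLp.coeFn_toLp (he1 j).1.1
  have hEm : ∀ j, E j ∈ modelSpace T := by
    intro j
    rw [hT, mem_model hθ]
    refine ⟨⟨Lp.memLp _, fun n hn => ?_⟩, fun g hg => ?_⟩
    · rw [fourierCoeff_congr (hEe j) n]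
      exact (he1 j).1.2 n hn
    · rw [ip_congr (hEe j) Filter.EventuallyEq.rfl]
      exact (he1 j).2 g hg
  have hEo : Orthonormal ℂ E := by
    rw [orthonormal_iff_ite]
    intro j k
    rw [← ip_L2, ip_congr (hEe k) (hEe j), he2]
    by_cases hjk : j = k
    · rw [if_pos hjk, if_pos hjk.symm]
    · rw [if_neg hjk, if_neg fun h => hjk h.symm]
  have hexp : ∀ f ∈ modelSpace T, f = ∑ k, inner ℂ (E k) f • E k := by
    intro f hf
    set f' : L2 := f - ∑ k, inner ℂ (E k) f • E k with hf'
    have h1 : f' ∈ modelSpace T := Submodule.sub_mem _ hf (Submodule.sum_mem _ fun k _ => Submodule.smul_mem _ _ (hEm k))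
    have h2 : ∀ j, inner ℂ (E j) f' = (0 : ℂ) := by
      intro j
      rw [hf', inner_sub_right, inner_sum, Finset.sum_eq_single j]
      · rw [inner_smul_right, (orthonormal_iff_ite.1 hEo) j j, if_pos rfl, mul_one, sub_self]
      · intro k _ hk
        rw [inner_smul_right, (orthonormal_iff_ite.1 hEo) j k, if_neg hk.symm, mul_zero]
      · intro h
        exact absurd (Finset.mem_univ _) h
    have h3 : f' = 0 := by
      rw [Lp.eq_zero_iff_ae_eq_zero]
      refine he3 f' ((mem_model hθ f').1 h1) fun j => ?_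
      rw [← h2 j, ← ip_L2]
      exact ip_congr Filter.EventuallyEq.rfl (hEe j).symm
    exact sub_eq_zero.1 h3
  have hspan : Submodule.span ℂ (Set.range E) = modelSpace T := by
    apply le_antisymm
    · rw [Submodule.span_le]
      rintro _ ⟨j, rfl⟩
      exact hEm j
    · intro f hf
      rw [hexp f hf]
      exact Submodule.sum_mem _ fun k _ => Submodule.smul_mem _ _ (Submodule.subset_span ⟨k, rfl⟩)
  have hfin : FiniteDimensional ℂ (modelSpace T) := by
    rw [← hspan]
    exact FiniteDimensional.span_of_finite ℂ (Set.finite_range E)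
  have hrank : Module.finrank ℂ (modelSpace T) = m := by
    rw [← hspan, finrank_span_eq_card hEo.linearIndependent, Fintype.card_fin]
  obtain ⟨w, hw, hli⟩ := exists_gen T m hrank
  let P : Matrix (Fin m) (Fin m) ℂ := Matrix.of fun k j => inner ℂ (E k) (zs (j : ℕ) w)
  have hP : ∀ j : Fin m, zs (j : ℕ) w = ∑ k, P k j • E k := fun j => hexp _ (hw j)
  refine ⟨P, fun a => ∫ x, fourier a x * ((starRingEnd ℂ) (w x) * w x) ∂(haarAddCircle (T := (1 : ℝ))),
    fun a => ∫ x, fourier a x * (φ x * ((starRingEnd ℂ) (w x) * w x)) ∂(haarAddCircle (T := (1 : ℝ))), ?_, ?_, ?_⟩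
  · intro hdet
    obtain ⟨v, hv0, hv⟩ := Matrix.exists_mulVec_eq_zero_iff.mpr hdet
    apply hv0
    have h1 : ∑ j, v j • zs (j : ℕ) w = 0 := by
      have h2 : ∀ j, v j • zs (j : ℕ) w = ∑ k, (v j * P k j) • E k := by
        intro j
        rw [hP j, Finset.smul_sum]
        exact Finset.sum_congr rfl fun k _ => smul_smul _ _ _
      rw [Finset.sum_congr rfl fun j _ => h2 j, Finset.sum_comm]
      refine Finset.sum_eq_zero fun k _ => ?_
      rw [← Finset.sum_smul]
      have h3 := congrFun hv k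
      rw [Matrix.mulVec, dotProduct] at h3
      have h4 : ∑ j, v j * P k j = 0 := by
        rw [← show (∑ j, P k j * v j) = 0 from h3]
        exact Finset.sum_congr rfl fun j _ => mul_comm _ _
      rw [h4, zero_smul]
    funext j
    exact Fintype.linearIndependent_iff.1 hli v h1 j
  · ext j l
    refine Eq.trans ?_ (inner_gen w j l)
    rw [Matrix.mul_apply]
    conv_rhs => rw [hP j, sum_inner]
    refine Finset.sum_congr rfl fun k _ => ?_
    rw [inner_smul_left, Matrix.conjTranspose_apply]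
    rfl
  · ext j l
    refine Eq.trans ?_ (symbol_gen w φ j l)
    rw [Matrix.mul_assoc, Matrix.mul_apply]
    have hae : ∀ j : Fin m, zs (j : ℕ) w =ᵐ[circleMeasure] fun x => ∑ k, P k j * e k x := by
      intro j
      rw [hP j]
      have h1 : ∀ k, (P k j • E k : L2) =ᵐ[circleMeasure] fun x => P k j * e k x := by
        intro k
        filter_upwards [Lp.coeFn_smul (P k j) (E k), hEe k] with x h1 h2
        rw [h1, Pi.smul_apply, h2, smul_eq_mul]
      have h2 : ∀ s : Finset (Fin m), ((∑ k ∈ s, P k j • E k : L2) : UnitAddCircle → ℂ) =ᵐ[circleMeasure]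
          fun x => ∑ k ∈ s, P k j * e k x := by
        intro s
        induction s using Finset.induction_on with
        | empty =>
          filter_upwards [Lp.coeFn_zero ℂ 2 (haarAddCircle (T := (1 : ℝ)))] with x hx
          rw [Finset.sum_empty, hx, Pi.zero_apply, Finset.sum_empty]
        | insert a s ha ih =>
          rw [Finset.sum_insert ha]
          filter_upwards [Lp.coeFn_add (P a j • E a) (∑ k ∈ s, P k j • E k), h1 a, ih] with x h3 h4 h5
          rw [h3, Pi.add_apply, h4, h5, Finset.sum_insert ha]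
      exact h2 Finset.univ
    have hint : ∀ k k', Integrable (fun x => (starRingEnd ℂ) (e k x) * (φ x * e k' x)) circleMeasure := by
      intro k k'
      have h1 : MemLp (fun x => φ x * e k' x) 2 circleMeasure := (he1 k').1.1.mul hφ
      have h2 : MemLp (fun x => (starRingEnd ℂ) (e k x)) 2 circleMeasure := (he1 k).1.1.star
      exact h2.integrable_mul h1
    calc ∑ k, Pᴴ j k * (B * P) k l = ∑ k, ∑ k', (starRingEnd ℂ) (P k j) * P k' l *
          ∫ x, (starRingEnd ℂ) (e k x) * (φ x * e k' x) ∂circleMeasure := by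
          refine Finset.sum_congr rfl fun k _ => ?_
          rw [Matrix.mul_apply, Finset.mul_sum]
          refine Finset.sum_congr rfl fun k' _ => ?_
          rw [hB k k', Matrix.conjTranspose_apply]
          unfold ip
          show (starRingEnd ℂ) (P k j) * ((∫ x, (starRingEnd ℂ) (e k x) * (φ x * e k' x) ∂circleMeasure) * P k' l) = _
          ring
      _ = ∫ x, ∑ k, ∑ k', (starRingEnd ℂ) (P k j) * P k' l * ((starRingEnd ℂ) (e k x) * (φ x * e k' x)) ∂circleMeasure := by
          rw [integral_finsetSum _ fun k _ => integrable_finsetSum _ fun k' _ => (hint k k').const_mul _]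
          refine Finset.sum_congr rfl fun k _ => ?_
          rw [integral_finsetSum _ fun k' _ => (hint k k').const_mul _]
          refine Finset.sum_congr rfl fun k' _ => ?_
          rw [integral_const_mul]
      _ = _ := by
          apply integral_congr_ae
          filter_upwards [hae j, hae l] with x h1 h2
          rw [h1, h2, map_sum, Finset.mul_sum, Finset.sum_mul]
          refine Finset.sum_congr rfl fun k _ => ?_
          rw [Finset.mul_sum]
          refine Finset.sum_congr rfl fun k' _ => ?_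
          rw [map_mul]
          ring

/-- the matrices of a direct sum of truncated Toeplitz operators in a suitable basis -/
private lemma matrices {ι : Type} [Fintype ι] [DecidableEq ι] {M : Matrix ι ι ℂ} (h : IsSumOfTTO M) :
    ∃ (r : ℕ) (m : Fin r → ℕ) (c1 e1 c2 e2 : Idx m → ℂ) (S : Matrix ι (Idx m) ℂ),
      ∑ i, m i = Fintype.card ι ∧ Sᴴ * S = bt m c1 e1 ∧ Sᴴ * M * S = bt m c2 e2 ∧ (Sᴴ * S).det ≠ 0 := by
  obtain ⟨r, m, B, W, hB, hW1, hW2, hM⟩ := h
  choose P G H hP hG hH using fun i => toeplitz_basis (hB i)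
  have hPd : (blockDiagonal' P)ᴴ = blockDiagonal' fun i => (P i)ᴴ := blockDiagonal'_conjTranspose P
  have h1 : (W * blockDiagonal' P)ᴴ * (W * blockDiagonal' P) = blockDiagonal' fun i => (P i)ᴴ * P i := by
    rw [conjTranspose_mul, hPd, Matrix.mul_assoc, ← Matrix.mul_assoc Wᴴ, hW1, Matrix.one_mul, ← blockDiagonal'_mul]
  have h2 : (W * blockDiagonal' P)ᴴ * M * (W * blockDiagonal' P) = blockDiagonal' fun i => (P i)ᴴ * B i * P i := by
    calc (W * blockDiagonal' P)ᴴ * M * (W * blockDiagonal' P)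
        = (blockDiagonal' P)ᴴ * ((Wᴴ * W) * blockDiagonal' B * (Wᴴ * W)) * blockDiagonal' P := by
          rw [conjTranspose_mul, hM]
          simp only [Matrix.mul_assoc]
      _ = _ := by
          rw [hW1, Matrix.one_mul, Matrix.mul_one, hPd, ← blockDiagonal'_mul, ← blockDiagonal'_mul]
  refine ⟨r, m, fun p => G p.1 (-((p.2 : ℕ) : ℤ)), fun p => G p.1 ((p.2 : ℕ) : ℤ),
    fun p => H p.1 (-((p.2 : ℕ) : ℤ)), fun p => H p.1 ((p.2 : ℕ) : ℤ), W * blockDiagonal' P, ?_, ?_, ?_, ?_⟩
  · have h3 := Matrix.square_of_invertible W Wᴴ hW2 hW1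
    rw [h3, Fintype.card_sigma]
    simp only [Fintype.card_fin]
  · rw [h1, bt]
    congr 1
    funext i
    rw [hG i]
    exact toep_of_int (G i)
  · rw [h2, bt]
    congr 1
    funext i
    rw [hH i]
    exact toep_of_int (H i)
  · rw [h1]
    intro h0
    have h3 : (blockDiagonal' fun i => ((P i)ᴴ * P i)⁻¹) * (blockDiagonal' fun i => (P i)ᴴ * P i) = 1 := by
      rw [← blockDiagonal'_mul, ← blockDiagonal'_one]
      congr 1
      funext i
      refine Matrix.nonsing_inv_mul _ (isUnit_iff_ne_zero.2 ?_)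
      rw [Matrix.det_mul, Matrix.det_conjTranspose]
      exact mul_ne_zero (star_ne_zero.2 (hP i)) (hP i)
    have h4 := congrArg Matrix.det h3
    rw [Matrix.det_mul, h0, mul_zero, Matrix.det_one] at h4
    exact zero_ne_one h4

/-- the invariants of `A ⊕ Aᵗ`, `A = diag(d) + i K`, are values of the smooth map `Fm` on a space of dimension `16 n + 2` -/
private lemma cover {n : ℕ} (L : Fin n → ℂ[X]) (d : Fin n → ℝ)
    (hL : ∀ i x, (L i).eval (d x : ℂ) = if x = i then 1 else 0)
    (K : Matrix (Fin n) (Fin n) ℂ) (hK : Kᴴ = K)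
    (h : IsSumOfTTO (fromBlocks (Amat d K) 0 0 (Amat d K)ᵀ)) :
    ∃ (r : ℕ) (m : Fin r → ℕ) (_ : ∑ i, m i = 2 * n) (p : Par m),
      ∀ z : Sym2 (Fin n), Fm m L p z =
        (K (Quot.out z).1 (Quot.out z).2 * K (Quot.out z).2 (Quot.out z).1).re := by
  obtain ⟨r, m, c1, e1, c2, e2, S, hm, hG, hT, hdet⟩ := matrices h
  have hm2 : ∑ i, m i = 2 * n := by
    rw [hm, Fintype.card_sum, Fintype.card_fin]
    ring
  have hcard : Fintype.card (Fin n ⊕ Fin n) = Fintype.card (Idx m) := by
    rw [← hm, Fintype.card_sigma]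
    simp only [Fintype.card_fin]
  refine ⟨r, m, hm2, ((c1, e1), (c2, e2), ((Sᴴ * S).det)⁻¹), fun z => ?_⟩
  have hGm : Gm m ((c1, e1), (c2, e2), ((Sᴴ * S).det)⁻¹) = Sᴴ * S := by
    rw [hG]
    rfl
  have hTm : Tm m ((c1, e1), (c2, e2), ((Sᴴ * S).det)⁻¹) =
      Sᴴ * (fromBlocks (Amat d K) 0 0 (Amat d K)ᵀ) * S := by
    rw [hT]
    rfl
  have key := Pool.Agent.H59.TTO.trace_invariant hcard S (fromBlocks (Amat d K) 0 0 (Amat d K)ᵀ) hdet
    (L (Quot.out z).1) (L (Quot.out z).2)
  have key2 := Pool.Agent.H59.TTO.invariant_value d K hK (L (Quot.out z).1) (L (Quot.out z).2) (Quot.out z).1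
    (Quot.out z).2 (hL _) (hL _)
  unfold Fm
  rw [hGm, hTm, key, key2]
  simp

end Cover

section Algebra

open Pool.Agent.H59.TTO (Amat)

variable {n : ℕ}

private lemma add_conj (d : Fin n → ℝ) (K : Matrix (Fin n) (Fin n) ℂ) (hK : Kᴴ = K) :
    Amat d K + (Amat d K)ᴴ = (2 : ℂ) • Matrix.diagonal (fun i => (d i : ℂ)) := by
  rw [Amat, conjTranspose_add, conjTranspose_smul, hK, diagonal_conjTranspose]
  have h1 : (star fun i => (d i : ℂ)) = fun i => (d i : ℂ) := by
    funext i
    exact Complex.conj_ofReal _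
  have h2 : star Complex.I = -Complex.I := Complex.conj_I
  rw [h1, h2, neg_smul, two_smul]
  abel

private lemma sub_conj (d : Fin n → ℝ) (K : Matrix (Fin n) (Fin n) ℂ) (hK : Kᴴ = K) :
    Amat d K - (Amat d K)ᴴ = (2 * Complex.I) • K := by
  rw [Amat, conjTranspose_add, conjTranspose_smul, hK, diagonal_conjTranspose]
  have h1 : (star fun i => (d i : ℂ)) = fun i => (d i : ℂ) := by
    funext i
    exact Complex.conj_ofReal _
  have h2 : star Complex.I = -Complex.I := Complex.conj_I
  rw [h1, h2, neg_smul, mul_smul, two_smul]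
  abel

private lemma irr (d : Fin n → ℝ) (L : Fin n → ℂ[X])
    (hL : ∀ i x, (L i).eval (d x : ℂ) = if x = i then 1 else 0) (K : Matrix (Fin n) (Fin n) ℂ) (hK : Kᴴ = K)
    (hne : ∀ i j, K i j ≠ 0) : IsIrreducible (Amat d K) := by
  classical
  intro W h1 h2
  set D : Matrix (Fin n) (Fin n) ℂ := Matrix.diagonal (fun i => (d i : ℂ)) with hD
  have hDW : ∀ v ∈ W, D *ᵥ v ∈ W := by
    intro v hv
    have h3 : D *ᵥ v = (1 / 2 : ℂ) • (Amat d K *ᵥ v + (Amat d K)ᴴ *ᵥ v) := by
      rw [← Matrix.add_mulVec, add_conj d K hK, Matrix.smul_mulVec, smul_smul, ← hD]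
      norm_num
    rw [h3]
    exact W.smul_mem _ (W.add_mem (h1 v hv) (h2 v hv))
  have hKW : ∀ v ∈ W, K *ᵥ v ∈ W := by
    intro v hv
    have h3 : K *ᵥ v = (1 / (2 * Complex.I) : ℂ) • (Amat d K *ᵥ v - (Amat d K)ᴴ *ᵥ v) := by
      rw [← Matrix.sub_mulVec, sub_conj d K hK, Matrix.smul_mulVec, smul_smul]
      have h4 : (1 / (2 * Complex.I) * (2 * Complex.I) : ℂ) = 1 := by
        field_simp [Complex.I_ne_zero]
      rw [h4, one_smul]
    rw [h3]
    exact W.smul_mem _ (W.sub_mem (h1 v hv) (h2 v hv))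
  have hpow : ∀ k : ℕ, ∀ v ∈ W, (D ^ k) *ᵥ v ∈ W := by
    intro k
    induction k with
    | zero =>
      intro v hv
      rw [pow_zero, Matrix.one_mulVec]
      exact hv
    | succ k ih =>
      intro v hv
      rw [pow_succ, ← Matrix.mulVec_mulVec]
      exact ih _ (hDW v hv)
  have hpol : ∀ p : ℂ[X], ∀ v ∈ W, (Polynomial.aeval D p) *ᵥ v ∈ W := by
    intro p v hv
    rw [Polynomial.aeval_eq_sum_range, Matrix.sum_mulVec]
    refine W.sum_mem fun k _ => ?_
    rw [Matrix.smul_mulVec]
    exact W.smul_mem _ (hpow k v hv)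
  have hE : ∀ i, ∀ v ∈ W, Pi.single i (v i) ∈ W := by
    intro i v hv
    have h3 := hpol (L i) v hv
    rw [hD, Pool.Agent.H59.TTO.aeval_diagonal] at h3
    have h4 : (Matrix.diagonal fun x => (L i).eval (d x : ℂ)) *ᵥ v = Pi.single i (v i) := by
      funext x
      rw [Matrix.mulVec_diagonal, hL]
      by_cases hx : x = i
      · subst hx
        rw [if_pos rfl, one_mul, Pi.single_eq_same]
      · rw [if_neg hx, zero_mul, Pi.single_eq_of_ne hx]
    rw [h4] at h3
    exact h3
  have hone : ∀ i, ∀ c : ℂ, c ≠ 0 → (Pi.single i c : Fin n → ℂ) ∈ W → (Pi.single i 1 : Fin n → ℂ) ∈ W := by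
    intro i c hc h
    have h3 := W.smul_mem c⁻¹ h
    rw [← Pi.single_smul, smul_eq_mul, inv_mul_cancel₀ hc] at h3
    exact h3
  by_cases hW : W = ⊥
  · exact Or.inl hW
  · right
    obtain ⟨v, hv, hv0⟩ := Submodule.exists_mem_ne_zero_of_ne_bot hW
    obtain ⟨i, hi⟩ := Function.ne_iff.1 hv0
    have hi1 := hone i (v i) hi (hE i v hv)
    have hall : ∀ j, (Pi.single j 1 : Fin n → ℂ) ∈ W := by
      intro j
      have h3 := hE j _ (hKW _ hi1)
      refine hone j _ ?_ h3
      rw [Matrix.mulVec_single_one]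
      exact hne j i
    rw [eq_top_iff]
    intro u _
    have h5 : u = ∑ j, u j • (Pi.single j 1 : Fin n → ℂ) := by
      funext x
      rw [Finset.sum_apply, Finset.sum_eq_single x]
      · rw [Pi.smul_apply, Pi.single_eq_same, smul_eq_mul, mul_one]
      · intro b _ hb
        rw [Pi.smul_apply, Pi.single_eq_of_ne hb.symm, smul_zero]
      · intro h
        exact absurd (Finset.mem_univ _) h
    rw [h5]
    exact W.sum_mem fun j _ => W.smul_mem _ (hall j)

private lemma notUECSM (d : Fin n → ℝ) (hd : Function.Injective d) (K : Matrix (Fin n) (Fin n) ℂ) (hK : Kᴴ = K)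
    (a b c : Fin n) (hne : K a b * K b c * K c a ≠ K b a * K c b * K a c) : ¬ IsUECSM (Amat d K) := by
  classical
  rintro ⟨V, hV, hs⟩
  have hV1 : V * Vᴴ = 1 := Matrix.mem_unitaryGroup_iff.1 hV
  have hV2 : Vᴴ * V = 1 := Matrix.mem_unitaryGroup_iff'.1 hV
  set C : Matrix (Fin n) (Fin n) ℂ := V * Vᵀ with hC
  have hgen : ∀ B : Matrix (Fin n) (Fin n) ℂ, (Vᴴ * B * V)ᵀ = Vᴴ * B * V → C * Bᵀ = B * C := by
    intro B hB
    rw [Matrix.transpose_mul, Matrix.transpose_mul] at hB
    have h1 : (Vᴴ)ᵀ * Vᵀ = 1 := by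
      rw [← Matrix.transpose_mul, hV1, Matrix.transpose_one]
    calc C * Bᵀ = V * (Vᵀ * (Bᵀ * (Vᴴ)ᵀ)) * Vᵀ := by
          rw [hC]
          simp only [Matrix.mul_assoc]
          rw [h1, Matrix.mul_one]
      _ = V * (Vᴴ * B * V) * Vᵀ := by rw [hB]
      _ = (V * Vᴴ) * B * (V * Vᵀ) := by simp only [Matrix.mul_assoc]
      _ = B * C := by rw [hV1, Matrix.one_mul]
  have hA := hgen _ hs
  have hs2 : (Vᴴ * (Amat d K)ᴴ * V)ᵀ = Vᴴ * (Amat d K)ᴴ * V := by
    have h1 : Vᴴ * (Amat d K)ᴴ * V = (Vᴴ * Amat d K * V)ᴴ := by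
      rw [conjTranspose_mul, conjTranspose_mul, conjTranspose_conjTranspose, Matrix.mul_assoc]
    rw [h1]
    have h2 : ((Vᴴ * Amat d K * V)ᴴ)ᵀ = ((Vᴴ * Amat d K * V)ᵀ)ᴴ := rfl
    rw [h2, hs]
  have hA2 := hgen _ hs2
  have hdiag : ∀ i j, i ≠ j → C i j = 0 := by
    intro i j hij
    have h1 : C * (Amat d K + (Amat d K)ᴴ)ᵀ = (Amat d K + (Amat d K)ᴴ) * C := by
      rw [Matrix.transpose_add, Matrix.mul_add, Matrix.add_mul, hA, hA2]
    rw [add_conj d K hK, Matrix.transpose_smul, Matrix.diagonal_transpose, Matrix.mul_smul, Matrix.smul_mul] at h1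
    have h2 := congrFun (congrFun h1 i) j
    rw [Matrix.smul_apply, Matrix.smul_apply, Matrix.mul_diagonal, Matrix.diagonal_mul, smul_eq_mul, smul_eq_mul] at h2
    have h3 : C i j * ((d j : ℂ) - (d i : ℂ)) = 0 := by linear_combination h2 / 2
    rcases mul_eq_zero.1 h3 with h4 | h4
    · exact h4
    · exact absurd (hd (Complex.ofReal_injective (sub_eq_zero.1 h4)).symm) hij
  have hrel : ∀ i j, C i i * K j i = K i j * C j j := by
    intro i j
    have h1 : C * (Amat d K - (Amat d K)ᴴ)ᵀ = (Amat d K - (Amat d K)ᴴ) * C := by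
      rw [Matrix.transpose_sub, Matrix.mul_sub, Matrix.sub_mul, hA, hA2]
    rw [sub_conj d K hK, Matrix.transpose_smul, Matrix.mul_smul, Matrix.smul_mul] at h1
    have h2 := congrFun (congrFun h1 i) j
    rw [Matrix.smul_apply, Matrix.smul_apply, Matrix.mul_apply, Matrix.mul_apply, Finset.sum_eq_single i,
      Finset.sum_eq_single j, Matrix.transpose_apply, smul_eq_mul, smul_eq_mul] at h2
    · have hI : (2 * Complex.I : ℂ) ≠ 0 := mul_ne_zero two_ne_zero Complex.I_ne_zero
      exact mul_left_cancel₀ hI h2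
    · intro k _ hk
      rw [hdiag k j hk, mul_zero]
    · intro h
      exact absurd (Finset.mem_univ _) h
    · intro k _ hk
      rw [hdiag i k hk.symm, zero_mul]
    · intro h
      exact absurd (Finset.mem_univ _) h
  have hCne : ∀ i, C i i ≠ 0 := by
    intro i h0
    have h1 : C * ((Vᴴ)ᵀ * Vᴴ) = 1 := by
      have h2 : Vᵀ * (Vᴴ)ᵀ = 1 := by rw [← Matrix.transpose_mul, hV2, Matrix.transpose_one]
      calc C * ((Vᴴ)ᵀ * Vᴴ) = V * (Vᵀ * (Vᴴ)ᵀ) * Vᴴ := by
            rw [hC]
            simp only [Matrix.mul_assoc]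
        _ = 1 := by rw [h2, Matrix.mul_one, hV1]
    have h3 := congrFun (congrFun h1 i) i
    rw [Matrix.mul_apply, Finset.sum_eq_single i, h0, zero_mul, Matrix.one_apply_eq] at h3
    · exact zero_ne_one h3
    · intro k _ hk
      rw [hdiag i k hk.symm, zero_mul]
    · intro h
      exact absurd (Finset.mem_univ _) h
  apply hne
  have e1 := hrel a b
  have e2 := hrel b c
  have e3 := hrel c a
  have hP : C a a * C b b * C c c ≠ 0 := mul_ne_zero (mul_ne_zero (hCne a) (hCne b)) (hCne c)
  apply mul_left_cancel₀ hP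
  calc C a a * C b b * C c c * (K a b * K b c * K c a) = (K a b * C b b) * (K b c * C c c) * (K c a * C a a) := by ring
    _ = (C a a * K b a) * (C b b * K c b) * (C c c * K a c) := by rw [e1, e2, e3]
    _ = C a a * C b b * C c c * (K b a * K c b * K a c) := by ring

end Algebra

section Final

open Pool.Agent.H59.TTO (Fm Amat)

/-- the phases of the entries of the imaginary part -/
private noncomputable def ph {n : ℕ} (i j : Fin n) : ℂ :=
  if (i : ℕ) = 0 ∧ (j : ℕ) = 1 then Complex.I else if (i : ℕ) = 1 ∧ (j : ℕ) = 0 then -Complex.I else 1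

private lemma ph_star {n : ℕ} (i j : Fin n) : star (ph j i) = ph i j := by
  unfold ph
  by_cases h1 : (j : ℕ) = 0 ∧ (i : ℕ) = 1
  · rw [if_pos h1, if_neg (by omega), if_pos ⟨h1.2, h1.1⟩]
    exact Complex.conj_I
  · rw [if_neg h1]
    by_cases h2 : (j : ℕ) = 1 ∧ (i : ℕ) = 0
    · rw [if_pos h2, if_pos ⟨h2.2, h2.1⟩, star_neg]
      show -(starRingEnd ℂ) Complex.I = _
      rw [Complex.conj_I, neg_neg]
    · rw [if_neg h2, if_neg (by omega), if_neg (by omega), star_one]

private lemma ph_mul {n : ℕ} (i j : Fin n) : ph i j * ph j i = 1 := by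
  unfold ph
  by_cases h1 : (j : ℕ) = 0 ∧ (i : ℕ) = 1
  · rw [if_pos h1, if_neg (by omega), if_pos ⟨h1.2, h1.1⟩, neg_mul, Complex.I_mul_I, neg_neg]
  · rw [if_neg h1]
    by_cases h2 : (j : ℕ) = 1 ∧ (i : ℕ) = 0
    · rw [if_pos h2, if_pos ⟨h2.2, h2.1⟩, mul_neg, Complex.I_mul_I, neg_neg]
    · rw [if_neg h2, if_neg (by omega), if_neg (by omega), one_mul]

private lemma ph_ne {n : ℕ} (i j : Fin n) : ph i j ≠ 0 := by
  intro h
  have h1 := ph_mul i j
  rw [h, zero_mul] at h1
  exact zero_ne_one h1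

/-- **The answer to the question is negative.** For every `n ≥ 32` there is an irreducible complex `n × n` matrix `A` which is
not unitarily equivalent to a complex symmetric matrix and such that `A ⊕ Aᵗ` is not unitarily equivalent to a finite orthogonal
direct sum of truncated Toeplitz operators. -/
theorem result (n : ℕ) (hn : 32 ≤ n) : ∃ A : Matrix (Fin n) (Fin n) ℂ,
    IsIrreducible A ∧ ¬ IsUECSM A ∧ ¬ IsSumOfTTO (fromBlocks A 0 0 Aᵀ) := by
  by_contra hcon
  push Not at hcon
  have hnum : 16 * n + 2 < (n + 1).choose 2 := by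
    rw [Nat.choose_two_right]
    have h1 : 33 * n ≤ (n + 1) * (n + 1 - 1) := by
      rw [Nat.add_sub_cancel]
      exact Nat.mul_le_mul_right n (by omega)
    omega
  set d : Fin n → ℝ := fun i => ((i : ℕ) : ℝ) with hd
  have hdinj : Function.Injective d := by
    intro i j hij
    have h1 : ((i : ℕ) : ℝ) = ((j : ℕ) : ℝ) := hij
    exact Fin.ext (by exact_mod_cast h1)
  have hinj : Function.Injective (fun i : Fin n => (d i : ℂ)) := fun i j hij => hdinj (Complex.ofReal_injective hij)
  set L : Fin n → ℂ[X] := fun i => Lagrange.basis Finset.univ (fun i : Fin n => (d i : ℂ)) i with hLdef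
  have hL : ∀ i x, (L i).eval (d x : ℂ) = if x = i then 1 else 0 := by
    intro i x
    by_cases h : x = i
    · subst h
      rw [if_pos rfl]
      exact Lagrange.eval_basis_self (hinj.injOn) (Finset.mem_univ _)
    · rw [if_neg h]
      exact Lagrange.eval_basis_of_ne (v := fun i : Fin n => (d i : ℂ)) (Ne.symm h) (Finset.mem_univ x)
  set U : Set (Sym2 (Fin n) → ℝ) := {q | ∀ z, 0 < q z} with hU
  have hUopen : IsOpen U := by
    have : U = Set.pi Set.univ (fun _ => Set.Ioi 0) := by
      ext q; simp [hU]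
    rw [this]
    exact isOpen_set_pi Set.finite_univ (fun _ _ => isOpen_Ioi)
  have hUne : (interior U).Nonempty := by
    rw [hUopen.interior_eq]
    exact ⟨fun _ => 1, fun _ => one_pos⟩
  have hcov : U ⊆ ⋃ x : (Σ r : ℕ, {m : Fin r → ℕ // ∑ i, m i = 2 * n}),
      Set.range (Fm (n := n) x.2.1 L) := by
    intro q hq
    set K : Matrix (Fin n) (Fin n) ℂ := Matrix.of fun i j => ((Real.sqrt (q s(i, j)) : ℝ) : ℂ) * ph i j with hK
    have hKh : Kᴴ = K := by
      ext i j
      rw [Matrix.conjTranspose_apply, hK, Matrix.of_apply, Matrix.of_apply, star_mul', ph_star]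
      congr 1
      rw [Sym2.eq_swap]
      exact Complex.conj_ofReal _
    have hsq : ∀ z, ((Real.sqrt (q z) : ℝ) : ℂ) ≠ 0 := fun z =>
      Complex.ofReal_ne_zero.2 (Real.sqrt_pos.2 (hq z)).ne'
    have hKne : ∀ i j, K i j ≠ 0 := fun i j => mul_ne_zero (hsq _) (ph_ne i j)
    have hirr := irr d L hL K hKh hKne
    have hnot : ¬ IsUECSM (Amat d K) := by
      refine notUECSM d hdinj K hKh ⟨0, by omega⟩ ⟨1, by omega⟩ ⟨2, by omega⟩ ?_
      simp only [hK, Matrix.of_apply, ph]
      norm_num
      rw [Sym2.eq_swap (a := (⟨1, by omega⟩ : Fin n)) (b := ⟨0, by omega⟩),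
        Sym2.eq_swap (a := (⟨2, by omega⟩ : Fin n)) (b := ⟨1, by omega⟩),
        Sym2.eq_swap (a := (⟨2, by omega⟩ : Fin n)) (b := ⟨0, by omega⟩)]
      rw [self_eq_neg]
      exact mul_ne_zero (mul_ne_zero (mul_ne_zero (hsq _) Complex.I_ne_zero) (hsq _)) (hsq _)
    obtain ⟨r, m, hm, p, hp⟩ := cover L d hL K hKh (hcon _ hirr hnot)
    rw [Set.mem_iUnion]
    refine ⟨⟨r, ⟨m, hm⟩⟩, p, ?_⟩
    funext z
    rw [hp z]
    have hz : s((Quot.out z).1, (Quot.out z).2) = z := Quot.out_eq z
    have hz2 : s((Quot.out z).2, (Quot.out z).1) = z := by rw [Sym2.eq_swap]; exact hz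
    simp only [hK, Matrix.of_apply, hz, hz2]
    rw [show ((Real.sqrt (q z) : ℝ) : ℂ) * ph (Quot.out z).1 (Quot.out z).2 *
        (((Real.sqrt (q z) : ℝ) : ℂ) * ph (Quot.out z).2 (Quot.out z).1) =
        ((Real.sqrt (q z) : ℝ) : ℂ) * ((Real.sqrt (q z) : ℝ) : ℂ) *
          (ph (Quot.out z).1 (Quot.out z).2 * ph (Quot.out z).2 (Quot.out z).1) by ring, ph_mul, mul_one,
      ← Complex.ofReal_mul, Complex.ofReal_re, Real.mul_self_sqrt (hq z).le]
  have hdimU : dimH U = ((n + 1).choose 2 : ℕ) := by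
    rw [Real.dimH_of_nonempty_interior hUne]
    simp [Sym2.card]
  have hdim2 : dimH (⋃ x : (Σ r : ℕ, {m : Fin r → ℕ // ∑ i, m i = 2 * n}),
      Set.range (Fm (n := n) x.2.1 L)) ≤ ((16 * n + 2 : ℕ) : ENNReal) := by
    rw [dimH_iUnion]
    apply iSup_le
    rintro ⟨r, m, hm⟩
    refine (ContDiff.dimH_range_le (Pool.Agent.H59.TTO.contDiff_Fm m L)).trans ?_
    rw [Pool.Agent.H59.TTO.finrank_Par, hm]
    exact_mod_cast (by omega : 8 * (2 * n) + 2 ≤ 16 * n + 2)
  have h1 := (dimH_mono hcov).trans hdim2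
  rw [hdimU] at h1
  have h2 : (n + 1).choose 2 ≤ 16 * n + 2 := by exact_mod_cast h1
  omega

end Final

end Pool.Agent.Results.MP_f70052_an.IrreducibleCounterexample
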